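import Pool.Agent.Helper69.RF.Bas

/-!
# Project RF, module EVN
-/

set_option autoImplicit false

open Polynomial Helper62.Weber

namespace Pool.Agent.Helper62.RF

open Pool.Agent.Helper69.RF

private theorem cR_poly (n : ℕ) : ∀ k : ℕ, (∃ q : ℤ[X], cR n k = aeval (XR n) q) ∧
    ∃ q : ℤ[X], cR n (k + 1) = aeval (XR n) q := by
  intro k
  induction k with
  | zero =>
    refine ⟨⟨C 2, ?_⟩, ⟨X, ?_⟩⟩
    · rw [cR_zero, aeval_C]
      simp
    · rw [zero_add, cR_one, aeval_X]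
  | succ k ih =>
    obtain ⟨⟨q, hq⟩, q', hq'⟩ := ih
    refine ⟨⟨q', hq'⟩, X * q' - q, ?_⟩
    have h := cR_mul n k 1
    rw [cR_one] at h
    rw [map_sub, map_mul, aeval_X, ← hq, ← hq']
    have h2 : k + 1 + 1 = k + 2 * 1 := by ring
    rw [h2]
    linarith

private theorem split_evn (q : ℤ[X]) : ∃ A B : ℤ[X], ∀ x : ℝ,
    aeval x q = aeval (x ^ 2) A + x * aeval (x ^ 2) B := by
  induction q using Polynomial.induction_on with
  | C a =>
    refine ⟨C a, 0, fun x => ?_⟩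
    rw [aeval_C, aeval_C, map_zero, mul_zero, add_zero]
  | add p q hp hq =>
    obtain ⟨A, B, h⟩ := hp
    obtain ⟨A', B', h'⟩ := hq
    refine ⟨A + A', B + B', fun x => ?_⟩
    rw [map_add, map_add, map_add, h, h']
    ring
  | monomial n a h =>
    obtain ⟨A, B, h⟩ := h
    refine ⟨X * B, A, fun x => ?_⟩
    have h1 : (C a * X ^ (n + 1) : ℤ[X]) = (C a * X ^ n) * X := by ring
    rw [h1, map_mul, aeval_X, h x, map_mul, aeval_X]
    ring

private theorem half_evn : ¬ IsIntegral ℤ ((1 / 2 : ℝ)) := by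
  intro h
  have h1 : IsIntegral ℤ (algebraMap ℚ ℝ (1 / 2)) := by
    have : algebraMap ℚ ℝ (1 / 2) = 1 / 2 := by norm_num
    rw [this]
    exact h
  have h2 : IsIntegral ℤ (1 / 2 : ℚ) :=
    (isIntegral_algebraMap_iff (algebraMap ℚ ℝ).injective).1 h1
  obtain ⟨k, hk⟩ := IsIntegrallyClosed.isIntegral_iff.1 h2
  have h3 : (k : ℚ) = 1 / 2 := hk
  have h4 : ((2 * k : ℤ) : ℚ) = ((1 : ℤ) : ℚ) := by
    push_cast
    linarith
  have h5 : 2 * k = 1 := by exact_mod_cast h4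
  omega

theorem cEVN : EVN := by
  intro hCOO hASC n u hn hu
  obtain ⟨hint, -, p, hup, hpp⟩ := hu
  obtain ⟨x, hx⟩ : ∃ x : ℝ, x = XR n := ⟨_, rfl⟩
  rw [← hx] at hup hpp
  have hx0 : x ≠ 0 := hx ▸ (XR_pos hn).ne'
  -- integer polynomial
  obtain ⟨a, ha⟩ := hCOO n u p hint (by rw [hup, hx])
  have hq : ∃ q : ℤ[X], (u : ℝ) = aeval x q := by
    choose Q hQ using fun k => (cR_poly n k).1
    refine ⟨C (a 0) + ∑ k ∈ Finset.Ico 1 (2 ^ n), C (a k) * Q k, ?_⟩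
    rw [ha, map_add, map_sum, aeval_C, hx]
    congr 1
    refine Finset.sum_congr rfl fun k _ => ?_
    rw [map_mul, aeval_C, hQ k]
    rfl
  obtain ⟨q, hq⟩ := hq
  obtain ⟨A', B', hAB⟩ := split_evn q
  have hconj : aeval (-x) p = aeval (-x) q := by
    have h1 : aeval (XR n) (p - q.map (Int.castRingHom ℚ)) = 0 := by
      rw [map_sub, ← aeval_Z, ← hx, ← hup, ← hq, sub_self]
    have h2 := conj_zero (odd_half n) _ h1
    rw [← neg_XR, ← hx, map_sub, ← aeval_Z, sub_eq_zero] at h2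
    exact h2
  have hprod : aeval x q * aeval (-x) q = 1 := by
    rw [← hconj, ← hq, hup]
    exact hpp
  rw [hAB x, hAB (-x), neg_sq] at hprod
  -- the ring
  obtain ⟨⟨v, w, hv, hw, e1, e2⟩⟩ : Nonempty (∃ v w : ℝ, v ∈ Algebra.adjoin ℤ {XR n ^ 2} ∧
      w ∈ Algebra.adjoin ℤ {XR n ^ 2} ∧ (XR n ^ 2) ^ 2 ^ (n - 1) = 2 * v ∧
      2 = (XR n ^ 2) ^ 2 ^ (n - 1) * w) := ⟨(hASC n hn).2⟩
  rw [← hx] at hv hw e1 e2
  obtain ⟨e, he⟩ : ∃ e : ℕ, e = 2 ^ (n - 1) := ⟨_, rfl⟩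
  rw [← he] at e1 e2
  have he0 : 1 ≤ e := he ▸ Nat.one_le_two_pow
  obtain ⟨y, hy⟩ : ∃ y : Algebra.adjoin ℤ {x ^ 2}, (y : ℝ) = x ^ 2 :=
    ⟨⟨x ^ 2, Algebra.subset_adjoin rfl⟩, rfl⟩
  obtain ⟨V, hV⟩ : ∃ V : Algebra.adjoin ℤ {x ^ 2}, (V : ℝ) = v := ⟨⟨v, hv⟩, rfl⟩
  obtain ⟨W, hW⟩ : ∃ W : Algebra.adjoin ℤ {x ^ 2}, (W : ℝ) = w := ⟨⟨w, hw⟩, rfl⟩
  obtain ⟨A, hA⟩ : ∃ A : Algebra.adjoin ℤ {x ^ 2}, (A : ℝ) = aeval (x ^ 2) A' :=
    ⟨⟨_, aeval_mem_adjoin_singleton ℤ _⟩, rfl⟩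
  obtain ⟨B, hB⟩ : ∃ B : Algebra.adjoin ℤ {x ^ 2}, (B : ℝ) = aeval (x ^ 2) B' :=
    ⟨⟨_, aeval_mem_adjoin_singleton ℤ _⟩, rfl⟩
  have E1 : y ^ e = 2 * V := by
    apply Subtype.ext
    push_cast
    rw [hy, hV]
    exact e1
  have E2 : 2 = y ^ e * W := by
    apply Subtype.ext
    push_cast
    rw [hy, hW]
    exact e2
  have E3 : A ^ 2 - y * B ^ 2 = 1 := by
    apply Subtype.ext
    push_cast
    rw [hy, hA, hB]
    linear_combination hprod
  have hy0 : y ≠ 0 := by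
    intro h
    have h1 := congrArg (fun z : Algebra.adjoin ℤ {x ^ 2} => (z : ℝ)) h
    simp only [hy] at h1
    exact hx0 (pow_eq_zero_iff two_ne_zero |>.1 h1)
  have hxint : IsIntegral ℤ x := hx ▸ XR_int n
  have hOint : ∀ z : Algebra.adjoin ℤ {x ^ 2}, IsIntegral ℤ (z : ℝ) := by
    intro z
    have h1 : Algebra.adjoin ℤ {x ^ 2} ≤ integralClosure ℤ ℝ := by
      rw [Algebra.adjoin_le_iff]
      rintro _ rfl
      exact hxint.pow 2
    exact h1 z.2
  have hy2 : y ∣ 2 := by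
    rw [E2]
    exact Dvd.dvd.mul_right (dvd_pow_self y (by omega)) _
  have hnu : ¬ IsUnit y := by
    intro h
    have h1 : IsUnit (2 * V) := E1 ▸ h.pow e
    have h2 : IsUnit (2 : Algebra.adjoin ℤ {x ^ 2}) := isUnit_of_mul_isUnit_left h1
    obtain ⟨z, hz⟩ := h2.exists_right_inv
    apply half_evn
    have h3 : (z : ℝ) = 1 / 2 := by
      have h4 : (2 : ℝ) * (z : ℝ) = 1 := congrArg (fun z : Algebra.adjoin ℤ {x ^ 2} => (z : ℝ)) hz
      linarith
    rw [← h3]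
    exact hOint z
  have hrep : ∀ z : Algebra.adjoin ℤ {x ^ 2}, ∃ (k : ℤ) (o : Algebra.adjoin ℤ {x ^ 2}),
      z = (k : Algebra.adjoin ℤ {x ^ 2}) + y * o := by
    rintro ⟨z, hz⟩
    induction hz using Algebra.adjoin_induction with
    | mem r hr =>
      refine ⟨0, 1, Subtype.ext ?_⟩
      push_cast
      rw [hy, Set.mem_singleton_iff.1 hr]
      ring
    | algebraMap r =>
      refine ⟨r, 0, Subtype.ext ?_⟩
      push_cast
      rw [mul_zero, add_zero]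
      rfl
    | add a b ha hb h1 h2 =>
      obtain ⟨k, o, h1⟩ := h1
      obtain ⟨k', o', h2⟩ := h2
      refine ⟨k + k', o + o', ?_⟩
      have h3 : (⟨a + b, Subalgebra.add_mem _ ha hb⟩ : Algebra.adjoin ℤ {x ^ 2}) =
          ⟨a, ha⟩ + ⟨b, hb⟩ := rfl
      rw [h3, h1, h2]
      push_cast
      ring
    | mul a b ha hb h1 h2 =>
      obtain ⟨k, o, h1⟩ := h1
      obtain ⟨k', o', h2⟩ := h2
      refine ⟨k * k', (k : Algebra.adjoin ℤ {x ^ 2}) * o' + (k' : Algebra.adjoin ℤ {x ^ 2}) * o +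
        y * (o * o'), ?_⟩
      have h3 : (⟨a * b, Subalgebra.mul_mem _ ha hb⟩ : Algebra.adjoin ℤ {x ^ 2}) =
          ⟨a, ha⟩ * ⟨b, hb⟩ := rfl
      rw [h3, h1, h2]
      push_cast
      ring
  have hodd : ∀ z : Algebra.adjoin ℤ {x ^ 2}, ¬ y ∣ z → ∃ (m : ℤ) (o : Algebra.adjoin ℤ {x ^ 2}),
      z = (2 * m + 1 : Algebra.adjoin ℤ {x ^ 2}) + y * o := by
    intro z hz
    obtain ⟨k, o, h⟩ := hrep z
    rcases Int.even_or_odd' k with ⟨m, hm | hm⟩
    · exfalso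
      apply hz
      rw [h, hm]
      push_cast
      exact dvd_add (Dvd.dvd.mul_right hy2 _) (dvd_mul_right _ _)
    · refine ⟨m, o, ?_⟩
      rw [h, hm]
      push_cast
      rfl
  have hprime : Prime y := by
    refine ⟨hy0, hnu, fun a b hab => ?_⟩
    by_contra hcon
    push Not at hcon
    obtain ⟨m, o, h1⟩ := hodd a hcon.1
    obtain ⟨m', o', h2⟩ := hodd b hcon.2
    apply hnu
    apply isUnit_of_dvd_one
    have h3 : (1 : Algebra.adjoin ℤ {x ^ 2}) = a * b - 2 * (2 * m * m' + m + m') -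
        y * ((2 * m + 1) * o' + (2 * m' + 1) * o + y * (o * o')) := by
      rw [h1, h2]
      ring
    rw [h3]
    exact dvd_sub (dvd_sub hab (Dvd.dvd.mul_right hy2 _)) (dvd_mul_right _ _)
  have key : ∀ k : ℕ, k ≤ e → y ^ k ∣ A - 1 ∧ y ^ k ∣ B := by
    intro k
    induction k with
    | zero => intro _; rw [pow_zero]; exact ⟨one_dvd _, one_dvd _⟩
    | succ k ih =>
      intro hk
      obtain ⟨⟨c, hc⟩, b, hb⟩ := ih (by omega)
      have hAc : A = 1 + y ^ k * c := by rw [← hc]; ring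
      obtain ⟨d, hd⟩ : ∃ d, e = k + (d + 1) := ⟨e - k - 1, by omega⟩
      have h2 : (2 : Algebra.adjoin ℤ {x ^ 2}) = y ^ k * (y * (y ^ d * W)) := by
        calc (2 : Algebra.adjoin ℤ {x ^ 2}) = y ^ e * W := E2
          _ = y ^ k * (y * (y ^ d * W)) := by rw [hd]; ring
      have h3 : (y ^ k * y ^ k) * (c * (c + y * (y ^ d * W))) = (y ^ k * y ^ k) * (y * b ^ 2) := by
        have h4 : (A - 1) * (A + 1) = y * B ^ 2 := by linear_combination E3
        have h5 : A + 1 = y ^ k * (c + y * (y ^ d * W)) := by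
          calc A + 1 = y ^ k * c + 2 := by rw [hAc]; ring
            _ = y ^ k * c + y ^ k * (y * (y ^ d * W)) := by rw [← h2]
            _ = _ := by ring
        calc (y ^ k * y ^ k) * (c * (c + y * (y ^ d * W))) =
            (y ^ k * c) * (y ^ k * (c + y * (y ^ d * W))) := by ring
          _ = (A - 1) * (A + 1) := by rw [hc, h5]
          _ = y * B ^ 2 := h4
          _ = (y ^ k * y ^ k) * (y * b ^ 2) := by rw [hb]; ring
      have hyk : y ^ k * y ^ k ≠ 0 := mul_ne_zero (pow_ne_zero _ hy0) (pow_ne_zero _ hy0)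
      have h6 : c * (c + y * (y ^ d * W)) = y * b ^ 2 := mul_left_cancel₀ hyk h3
      have h7 : y ∣ c := by
        have h8 : y ∣ c * (c + y * (y ^ d * W)) := h6 ▸ dvd_mul_right _ _
        rcases hprime.2.2 _ _ h8 with h9 | h9
        · exact h9
        · exact (dvd_add_left (dvd_mul_right y _)).1 h9
      obtain ⟨c', hc'⟩ := h7
      have h8 : y * (c' * (y * (c' + y ^ d * W))) = y * b ^ 2 := by
        rw [← h6, hc']
        ring
      have h9 : c' * (y * (c' + y ^ d * W)) = b ^ 2 := mul_left_cancel₀ hy0 h8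
      have h10 : y ∣ b := by
        have h11 : y ∣ b ^ 2 := by
          rw [← h9]
          exact Dvd.dvd.mul_left (dvd_mul_right _ _) _
        exact hprime.dvd_of_dvd_pow h11
      obtain ⟨b', hb'⟩ := h10
      refine ⟨⟨c', ?_⟩, ⟨b', ?_⟩⟩
      · rw [hc, hc']
        ring
      · rw [hb, hb']
        ring
  obtain ⟨⟨c, hc⟩, b, hb⟩ := key e le_rfl
  rw [E1] at hc hb
  have h1 : (A : ℝ) - 1 = 2 * v * c := by
    have h2 := congrArg (fun z : Algebra.adjoin ℤ {x ^ 2} => (z : ℝ)) hc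
    push_cast at h2
    rw [hV] at h2
    exact h2
  have h2 : (B : ℝ) = 2 * v * b := by
    have h2 := congrArg (fun z : Algebra.adjoin ℤ {x ^ 2} => (z : ℝ)) hb
    push_cast at h2
    rw [hV] at h2
    exact h2
  have h3 : ((u : ℝ) - 1) / 2 = (V : ℝ) * c + x * ((V : ℝ) * b) := by
    rw [hq, hAB x, ← hA, ← hB, hV]
    linear_combination h1 / 2 + x * h2 / 2
  rw [h3]
  exact ((hOint V).mul (hOint c)).add (hxint.mul ((hOint V).mul (hOint b)))

end Pool.Agent.Helper62.RF
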